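import Pool.Agent.H71.NU.Stmts
import Pool.Agent.H47.MS.Cod

/-! NU, module COR: a countable family of block codes with radii -/

namespace NU

open MeasureTheory MS MS.H47 TopologicalSpace

theorem COR_rad (c : Code) (x x' : ℤ → ℕ) (i : ℤ) (h : ∀ j : ℤ, |j - i| ≤ c.1 → x j = x' j) :
    runCode c x i = runCode c x' i := by
  simp only [runCode]
  refine congrArg c.2.2 (funext fun j => ?_)
  have hj : x (i + ((j : ℕ) : ℤ) - c.1) = x' (i + ((j : ℕ) : ℤ) - c.1) := by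
    apply h
    have := j.2
    rw [abs_le]
    constructor <;> omega
  simp only [hj]

theorem COR_code (X Y : NC) (f g : (ℤ → ℕ) → (ℤ → ℕ)) (r : ℕ) (hX : IsMinSubshift X)
    (h : IsConj X Y f g r) : ∃ c : Code, ∀ x ∈ X, runCode c x = f x := by
  classical
  have hXs : ∀ x ∈ X, ∀ n : ℤ, sh n x ∈ X := fun x hx n => inv_sh hX.1 hx n
  obtain ⟨M, hM⟩ : ∃ M : ℕ, ∀ x ∈ X, ∀ i, x i ≤ M := by
    have hK : IsCompact ((fun x : ℤ → ℕ => x 0) '' (X : Set (ℤ → ℕ))) :=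
      X.isCompact.image (continuous_apply 0)
    obtain ⟨M, hM⟩ := hK.bddAbove
    refine ⟨M, fun x hx i => ?_⟩
    have := hM ⟨sh i x, hXs x hx i, rfl⟩
    simpa [sh] using this
  set tab : (Fin (2 * r + 1) → Fin (M + 1)) → ℕ := fun w =>
    if hw : ∃ x, x ∈ X ∧ ∀ j : Fin (2 * r + 1), ((w j : Fin (M + 1)) : ℕ) = x (((j : ℕ) : ℤ) - r)
      then f hw.choose 0 else 0 with htab
  refine ⟨⟨r, M, tab⟩, fun x hx => ?_⟩
  funext i
  simp only [runCode]
  have hw : ∃ y, y ∈ X ∧ ∀ j : Fin (2 * r + 1),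
      ((⟨min (x (i + ((j : ℕ) : ℤ) - r)) M, Nat.lt_succ_of_le (min_le_right _ _)⟩ :
        Fin (M + 1)) : ℕ) = y (((j : ℕ) : ℤ) - r) := by
    refine ⟨sh i x, hXs x hx i, fun j => ?_⟩
    simp only [sh]
    rw [min_eq_left (hM x hx _)]
    congr 1
    ring
  rw [htab]
  simp only
  rw [dif_pos hw]
  obtain ⟨h1, h2⟩ := hw.choose_spec
  set y := hw.choose
  have h3 : f x i = f (sh i x) 0 := by
    rw [h.comm x hx]
    simp [sh]
  rw [h3]
  apply h.rad y h1 (sh i x) (hXs x hx i) 0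
  intro j hj
  rw [sub_zero] at hj
  obtain ⟨t, ht⟩ : ∃ t : ℕ, (t : ℤ) = j + r :=
    ⟨(j + r).toNat, Int.toNat_of_nonneg (by have := (abs_le.1 hj).1; omega)⟩
  have ht' : t < 2 * r + 1 := by have := (abs_le.1 hj).2; omega
  have h4 := h2 ⟨t, ht'⟩
  simp only [ht] at h4
  rw [min_eq_left (hM x hx _), add_sub_cancel_right] at h4
  rw [← h4]
  simp only [sh]
  congr 1
  ring

theorem COR_meas (Φ : (ℤ → ℕ) → (ℤ → ℕ)) (hΦ : Continuous Φ) :
    MeasurableSet {p : NC × NC | ∀ x ∈ p.1, Φ x ∈ p.2} := by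
  have hc := isBasis_countableBasis (ℤ → ℕ)
  have key : {p : NC × NC | ∀ x ∈ p.1, Φ x ∈ p.2} =
      (⋃ V ∈ countableBasis (ℤ → ℕ),
        {X : NC | ((X : Set (ℤ → ℕ)) ∩ (Φ ⁻¹' V)).Nonempty} ×ˢ
          {X : NC | ((X : Set (ℤ → ℕ)) ∩ V).Nonempty}ᶜ)ᶜ := by
    ext ⟨X, Y⟩
    simp only [Set.mem_ofPred_eq, Set.mem_compl_iff, Set.mem_iUnion, Set.mem_prod, not_exists,
      not_and, not_not, exists_prop]
    constructor
    · rintro h V hV ⟨x, hx, hxV⟩
      exact ⟨Φ x, h x hx, hxV⟩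
    · intro h x hx
      by_contra hn
      have ho : IsOpen ((Y : Set (ℤ → ℕ))ᶜ) := Y.isCompact.isClosed.isOpen_compl
      obtain ⟨V, hV, hxV, hVY⟩ := hc.exists_subset_of_mem_open (show Φ x ∈ (Y : Set (ℤ → ℕ))ᶜ
        from hn) ho
      obtain ⟨y, hy, hyV⟩ := h V hV ⟨x, hx, hxV⟩
      exact hVY hyV hy
  rw [key]
  refine (MeasurableSet.biUnion (countable_countableBasis _) fun V hV => ?_).compl
  have hVo : IsOpen V := isOpen_of_mem_countableBasis hV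
  exact (NonemptyCompacts.isOpen_inter_nonempty_of_isOpen (hVo.preimage hΦ)).measurableSet.prod
    (NonemptyCompacts.isOpen_inter_nonempty_of_isOpen hVo).measurableSet.compl

theorem sCor : SCor := by
  classical
  have hne : Nonempty Code := ⟨⟨0, 0, fun _ => 0⟩⟩
  obtain ⟨e, he⟩ := exists_surjective_nat Code
  refine ⟨fun k => runCode (e k), fun k => (e k).1, fun k x x' i h => COR_rad _ _ _ _ h, ?_,
    fun k => COR_meas _ (runCode_cont _)⟩
  intro X Y hX hY hXY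
  obtain ⟨f, g, r, h⟩ := (chl.1 X Y hX hY).1 hXY
  obtain ⟨c, hc⟩ := COR_code X Y f g r hX h
  obtain ⟨k, hk⟩ := he c
  refine ⟨k, fun x hx => ?_⟩
  simp only [hk]
  rw [hc x hx]
  exact h.maps x hx

end NU
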