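import Pool.Agent.H71.NU.Stmts

/-! NU, module DET: measurable data are determined by finitely many tests -/

namespace NU

open MeasureTheory MS

theorem DET_refine (Ω : Type) [m : MeasurableSpace Ω] [StandardBorelSpace Ω] {β : Type}
    [TopologicalSpace β] [SecondCountableTopology β] [MeasurableSpace β] [OpensMeasurableSpace β]
    (F : Ω → β) (hF : Measurable F) :
    ∃ t : TopologicalSpace Ω, @PolishSpace Ω t ∧ @BorelSpace Ω t m ∧ @Continuous Ω β t _ F := by
  let t₀ := upgradeStandardBorel Ω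
  obtain ⟨t', hle, hc, hp⟩ := hF.exists_continuous
  refine ⟨t', hp, ⟨?_⟩, hc⟩
  have h1 := borel_eq_borel_of_le hp t₀.toPolishSpace hle
  rw [h1]
  exact t₀.toBorelSpace.measurable_eq

theorem sDet : SDet := by
  classical
  intro Ω m _ μ _ Λ ψ D B hΛ hψ hD hB hinj ε hε
  obtain ⟨t, hp, hb, hc⟩ := DET_refine Ω (fun ω => (Λ ω, ψ ω, D ω)) (hΛ.prodMk (hψ.prodMk hD))
  have hcΛ : Continuous Λ := continuous_fst.comp hc
  have hcψ : Continuous ψ := (continuous_fst.comp continuous_snd).comp hc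
  have hcD : Continuous D := (continuous_snd.comp continuous_snd).comp hc
  obtain ⟨K, hKB, hKc, hKcl, hKm, hKε⟩ : ∃ K : Set Ω, K ⊆ B ∧ IsCompact K ∧ IsClosed K ∧
      MeasurableSet K ∧ μ (B \ K) ≤ ε := by
    by_cases h0 : μ B ≤ ε
    · exact ⟨∅, Set.empty_subset _, isCompact_empty, isClosed_empty, MeasurableSet.empty,
        by simpa using h0⟩
    · have hBt : μ B ≠ ⊤ := measure_ne_top _ _
      have hlt : μ B - ε < μ B := ENNReal.sub_lt_self hBt (fun h => h0 (by rw [h]; exact zero_le))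
        hε.ne'
      obtain ⟨K, hKB, ⟨hK1, hK2⟩, hK3⟩ :=
        innerRegular_isCompact_isClosed_measurableSet_of_finite μ hB _ hlt
      refine ⟨K, hKB, hK1, hK2, hK2.measurableSet, ?_⟩
      rw [measure_sdiff hKB hK2.measurableSet.nullMeasurableSet (measure_ne_top _ _)]
      rw [tsub_le_iff_left]
      have := tsub_le_iff_right.1 hK3.le
      rwa [add_comm] at this ⊢
  refine ⟨K, hKB, hKm, hKε, ?_⟩
  by_contra hcon
  push Not at hcon
  obtain ⟨e, he⟩ := exists_surjective_nat (List ℕ)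
  set C : ℕ → Set (Ω × Ω) := fun n => (K ×ˢ K) ∩ {p | (∀ i < n, Λ p.1 (e i) = Λ p.2 (e i)) ∧
    ψ p.1 = ψ p.2 ∧ D p.1 ≠ D p.2} with hC
  have hCcl : ∀ n, IsClosed {p : Ω × Ω | (∀ i < n, Λ p.1 (e i) = Λ p.2 (e i)) ∧
      ψ p.1 = ψ p.2 ∧ D p.1 ≠ D p.2} := by
    intro n
    have e1 : {p : Ω × Ω | (∀ i < n, Λ p.1 (e i) = Λ p.2 (e i)) ∧ ψ p.1 = ψ p.2 ∧
        D p.1 ≠ D p.2} = (⋂ i, ⋂ (_ : i < n), {p : Ω × Ω | Λ p.1 (e i) = Λ p.2 (e i)}) ∩
        ({p : Ω × Ω | ψ p.1 = ψ p.2} ∩ {p | D p.1 ≠ D p.2}) := by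
      ext p
      simp only [Set.mem_ofPred_eq, Set.mem_inter_iff, Set.mem_iInter]
    rw [e1]
    refine IsClosed.inter ?_ (IsClosed.inter ?_ ?_)
    · refine isClosed_iInter fun i => isClosed_iInter fun _ => ?_
      exact isClosed_eq ((continuous_apply _).comp (hcΛ.comp continuous_fst))
        ((continuous_apply _).comp (hcΛ.comp continuous_snd))
    · exact isClosed_eq (hcψ.comp continuous_fst) (hcψ.comp continuous_snd)
    · have hc2 : Continuous (fun p : Ω × Ω => (D p.1, D p.2)) :=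
        (hcD.comp continuous_fst).prodMk (hcD.comp continuous_snd)
      exact (isClosed_discrete {q : ℕ × ℕ | q.1 ≠ q.2}).preimage hc2
  have hne : (⋂ n, C n).Nonempty := by
    apply IsCompact.nonempty_iInter_of_sequence_nonempty_isCompact_isClosed
    · intro n p hp
      exact ⟨hp.1, fun i hi => hp.2.1 i (hi.trans (Nat.lt_succ_self n)), hp.2.2⟩
    · intro n
      obtain ⟨ω, hω, ω', hω', h1, h2, h3⟩ := hcon ((Finset.range n).image e)
      exact ⟨(ω, ω'), ⟨hω, hω'⟩, fun i hi => h1 _ (Finset.mem_image_of_mem _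
        (Finset.mem_range.2 hi)), h2, h3⟩
    · exact (hKc.prod hKc).inter_right (hCcl 0)
    · intro n
      exact (hKcl.prod hKcl).inter (hCcl n)
  obtain ⟨p, hp⟩ := hne
  rw [Set.mem_iInter] at hp
  have hΛp : Λ p.1 = Λ p.2 := by
    funext w
    obtain ⟨i, rfl⟩ := he w
    exact (hp (i + 1)).2.1 i (Nat.lt_succ_self i)
  have hpp := hinj p.1 (hKB (hp 0).1.1) p.2 (hKB (hp 0).1.2) hΛp (hp 0).2.2.1
  exact (hp 0).2.2.2 (by rw [hpp])

end NU
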